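import Pool.Agent.Q267.AM.Val

/-!
# Complete intersections and their cyclic covers
-/

set_option autoImplicit false

open Finset

namespace Pool.Agent.Q267.AM

open Pool.Agent.Q267.AP
open NumberField IsDedekindDomain
open Pool.Agent.Q267.OD (charP_res finite_mem red)
open Pool.Agent.Q267.DC (hm)

section

variable {K : Type} [Field K] [NumberField K] {n r : ℕ}

/-- The Cartier operator on the forms of degree `E - n - 1` is surjective modulo the ideal of the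
complete intersection. -/
def Surj {R : Type} [CommRing R] (m q E : ℕ) (I : Finset (Fin r))
    (g : Fin r → MvPolynomial (Fin (n + 1)) R) (h : MvPolynomial (Fin (n + 1)) R) : Prop :=
  ∀ B : MvPolynomial (Fin (n + 1)) R, (∀ u ∈ B.support, ∑ i, u i + (n + 1) = E) →
    ∃ A : MvPolynomial (Fin (n + 1)) R, (∀ u ∈ A.support, ∑ i, u i + (n + 1) = E) ∧
      U q (A * ((∏ i ∈ I, g i) ^ m * h) ^ ((q - 1) / m)) - B ∈ Ideal.span (g '' (I : Set (Fin r)))

/-- Good places. -/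
def GoodC (m : ℕ) (J : Finset ℕ) (d : Fin r → ℕ) (e : ℕ → ℕ) (Δ : Polynomial (𝓞 K))
    (f : Fin r → MvPolynomial (Fin (n + 1)) (Polynomial (𝓞 K)))
    (F : ℕ → MvPolynomial (Fin (n + 1)) (Polynomial (𝓞 K))) (t : ℕ)
    (v : HeightOneSpectrum (𝓞 K)) : Prop :=
  (m : 𝓞 K) ∉ v.asIdeal ∧ Δ.eval (t : 𝓞 K) ∉ v.asIdeal ∧ ∀ j ∈ J, ∀ I : Finset (Fin r),
    I.Nonempty → Surj m (Ideal.absNorm v.asIdeal) (∑ i ∈ I, d i + e j) I
      (fun i => red v (mem (f i) t)) (red v (mem (F j) t))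

lemma goodC_mod (m : ℕ) (J : Finset ℕ) (d : Fin r → ℕ) (e : ℕ → ℕ) (Δ : Polynomial (𝓞 K))
    (f : Fin r → MvPolynomial (Fin (n + 1)) (Polynomial (𝓞 K)))
    (F : ℕ → MvPolynomial (Fin (n + 1)) (Polynomial (𝓞 K)))
    (v : HeightOneSpectrum (𝓞 K)) (hv : (Ideal.absNorm v.asIdeal).Prime) (t : ℕ) :
    GoodC m J d e Δ f F t v ↔ GoodC m J d e Δ f F (t % Ideal.absNorm v.asIdeal) v := by
  have := charP_res v hv
  have h1 : (t : v.asIdeal.ResidueField) =
      ((t % Ideal.absNorm v.asIdeal : ℕ) : v.asIdeal.ResidueField) :=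
    (CharP.natCast_eq_natCast' _ (Ideal.absNorm v.asIdeal) (Nat.mod_modEq _ _)).symm
  have h2 : ∀ t : ℕ, Δ.eval (t : 𝓞 K) ∈ v.asIdeal ↔
      (Δ.map (algebraMap (𝓞 K) v.asIdeal.ResidueField)).eval (t : v.asIdeal.ResidueField) = 0 := by
    intro t
    rw [← Ideal.algebraMap_residueField_eq_zero, Polynomial.eval_map,
      ← map_natCast (algebraMap (𝓞 K) v.asIdeal.ResidueField) t, Polynomial.eval₂_at_apply]
  unfold GoodC
  simp only [red_mem]
  rw [h2, h2, ← h1]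

/-- The family `(∏ f_i) ^ m F_j`. -/
noncomputable def fam (m : ℕ) (f : Fin r → MvPolynomial (Fin (n + 1)) (Polynomial (𝓞 K)))
    (F : ℕ → MvPolynomial (Fin (n + 1)) (Polynomial (𝓞 K))) (x : Finset (Fin r) × ℕ) :
    MvPolynomial (Fin (n + 1)) (Polynomial (𝓞 K)) :=
  (∏ i ∈ x.1, f i) ^ m * F x.2

lemma good_of_T (m : ℕ) (J : Finset ℕ) (d : Fin r → ℕ) (e : ℕ → ℕ)
    (Δ : Polynomial (𝓞 K)) (f : Fin r → MvPolynomial (Fin (n + 1)) (Polynomial (𝓞 K)))
    (hf : ∀ i, Hg (d i) (f i))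
    (F : ℕ → MvPolynomial (Fin (n + 1)) (Polynomial (𝓞 K))) (hF : ∀ j ∈ J, Hg (m * e j) (F j))
    (t : ℕ) (v : HeightOneSpectrum (𝓞 K)) (hq : 0 < Ideal.absNorm v.asIdeal)
    (h : GoodT m ((univ.filter Finset.Nonempty) ×ˢ J) (fun x => ∑ i ∈ x.1, d i + e x.2) Δ
      (fam m f F) t v) : GoodC m J d e Δ f F t v := by
  classical
  obtain ⟨h1, h2, h3⟩ := h
  refine ⟨h1, h2, fun j hj I hI B hB => ?_⟩
  have h4 := h3 (I, j) (mem_product.mpr ⟨mem_filter.mpr ⟨mem_univ _, hI⟩, hj⟩)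
  have hdeg : Hg (m * (∑ i ∈ I, d i + e j)) (fam m f F (I, j)) := by
    rw [mul_add]
    exact ((Hg.prod I fun i _ => hf i).pow m).mul (hF j hj)
  have hdeg2 : Hg (m * (∑ i ∈ I, d i + e j)) (red v (mem (fam m f F (I, j)) t)) := by
    unfold red mem
    exact (hdeg.map _).map _
  obtain ⟨A, hA, hAB⟩ := cart_surj _ _ _ _ hq _ hdeg2 h4 B hB
  refine ⟨A, hA, ?_⟩
  have h5 : red v (mem (fam m f F (I, j)) t) =
      (∏ i ∈ I, red v (mem (f i) t)) ^ m * red v (mem (F j) t) := by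
    unfold fam red mem
    simp only [map_mul, map_pow, map_prod]
  rw [h5] at hAB
  rw [hAB, sub_self]
  exact Ideal.zero_mem _

open Classical in
/-- **Few members are bad modulo a place.** -/
theorem fewC (m : ℕ) (hm1 : 1 ≤ m) (ζ : K) (hζ : IsPrimitiveRoot ζ m) (J : Finset ℕ)
    (d : Fin r → ℕ) (e : ℕ → ℕ)
    (f : Fin r → MvPolynomial (Fin (n + 1)) (Polynomial (𝓞 K))) (hf : ∀ i, Hg (d i) (f i))
    (F : ℕ → MvPolynomial (Fin (n + 1)) (Polynomial (𝓞 K))) (hF : ∀ j ∈ J, Hg (m * e j) (F j))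
    (s : ℕ → Option K)
    (L : (j : ℕ) → (i : Fin r) → Fin (d i) → Fin (n + 1) → AlgebraicClosure K)
    (M : (j : ℕ) → Fin (e j) → Fin (n + 1) → AlgebraicClosure K)
    (hgen : ∀ j ∈ J, ∀ σ : Fin (n + 1) → ((i : Fin r) × Fin (d i)) ⊕ Fin (e j),
      Function.Injective σ → (Matrix.of fun a b => forms (L j) (M j) (σ a) b).det ≠ 0)
    (hfv : ∀ j ∈ J, ∀ i, Val (s j) (f i) (∏ a, lf (L j i a)))
    (hFv : ∀ j ∈ J, Val (s j) (F j) ((∏ b, lf (M j b)) ^ m))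
    (Δ : Polynomial (𝓞 K)) (hΔ : Δ ≠ 0) (ε : ℝ) (hε : 0 < ε) :
    {v : HeightOneSpectrum (𝓞 K) | (Ideal.absNorm v.asIdeal).Prime ∧
      ¬ (((range (Ideal.absNorm v.asIdeal)).filter fun t : ℕ =>
        ¬ GoodC m J d e Δ f F t v).card : ℝ) ≤ ε * Ideal.absNorm v.asIdeal}.Finite := by
  choose ν hν hνp using fun x : Finset (Fin r) × ℕ =>
    exists_num (K := K) (n := n) x.1 d (e x.2)
  have h1 := fewT (n := n) m hm1 ζ hζ ((univ.filter Finset.Nonempty) ×ˢ J)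
    (fun x : Finset (Fin r) × ℕ => ∑ i ∈ x.1, d i + e x.2) (fam m f F) (by
      rintro ⟨I, j⟩ hx
      have hj := (mem_product.mp hx).2
      have hdeg : Hg (m * (∑ i ∈ I, d i + e j)) (fam m f F (I, j)) := by
        rw [mul_add]
        exact ((Hg.prod I fun i _ => hf i).pow m).mul (hF j hj)
      exact hdeg)
    (fun x a => forms (L x.2) (M x.2) (ν x a)) (by
      rintro ⟨I, j⟩ hx σ hσ
      have hj := (mem_product.mp hx).2
      exact hgen j hj (fun a => ν (I, j) (σ a)) ((hν (I, j)).comp hσ)) (by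
      rintro ⟨I, j⟩ hx
      have hj := (mem_product.mp hx).2
      apply Val.arr (s := s j)
      have h2 := hνp (I, j) (fun y => lf (forms (L j) (M j) y))
      have h3 : Val (s j) (fam m f F (I, j))
          ((∏ i ∈ I, ∏ a, lf (L j i a)) ^ m * (∏ b, lf (M j b)) ^ m) :=
        ((Val.prod I fun i _ => hfv j hj i).pow m).mul (hFv j hj)
      rw [← mul_pow] at h3
      have h4 : (∏ a, lf (forms (L j) (M j) (ν (I, j) a))) =
        (∏ i ∈ I, ∏ a, lf (L j i a)) * ∏ b, lf (M j b) := h2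
      change Val (s j) (fam m f F (I, j)) ((∏ a, lf (forms (L j) (M j) (ν (I, j) a))) ^ m)
      rw [h4]
      exact h3) Δ hΔ ε hε
  refine h1.subset fun v hv => ⟨hv.1, fun h => hv.2 (le_trans ?_ h)⟩
  have h2 : ((range (Ideal.absNorm v.asIdeal)).filter fun t : ℕ =>
      ¬ GoodC m J d e Δ f F t v) ⊆ (range (Ideal.absNorm v.asIdeal)).filter fun t : ℕ =>
      ¬ GoodT m ((univ.filter Finset.Nonempty) ×ˢ J)
        (fun x : Finset (Fin r) × ℕ => ∑ i ∈ x.1, d i + e x.2) Δ (fam m f F) t v := by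
    intro t ht
    rw [mem_filter] at ht ⊢
    exact ⟨ht.1, fun h3 => ht.2 (good_of_T m J d e Δ f hf F hF t v hv.1.pos h3)⟩
  exact_mod_cast card_le_card h2

end

end Pool.Agent.Q267.AM
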