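import Mathlib

/-!
# Roots of power series with integral coefficients

For every `m ≥ 1` and every power series `y` without constant term over a commutative ring the
series `(1 + m ^ 2 y) ^ (-1 / m)` exists over the same ring.
-/

set_option autoImplicit false

open Finset PowerSeries

namespace Pool.Agent.Q267.AM

/-- Roots: `(1 + m ^ 2 y) ^ (-1 / m)`. -/
def S_RootG : Prop :=
  ∀ (R : Type) [CommRing R] (m : ℕ), 1 ≤ m → ∀ y : PowerSeries R,
    constantCoeff y = 0 → ∃ ψ : PowerSeries R, constantCoeff ψ = 1 ∧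
      ψ ^ m * (1 + (m : PowerSeries R) ^ 2 * y) = 1

section

variable {R : Type} [CommRing R]

/-- The iteration. -/
noncomputable def it (Q : Polynomial (PowerSeries R)) (y : PowerSeries R) : ℕ → PowerSeries R
  | 0 => 0
  | k + 1 => y - (it Q y k) ^ 2 * Q.eval (it Q y k)

lemma X_dvd_it (Q : Polynomial (PowerSeries R)) (y : PowerSeries R) (hy : X ∣ y) (k : ℕ) :
    X ∣ it Q y k := by
  induction k with
  | zero => exact dvd_zero _
  | succ k ih =>
    exact dvd_sub hy (Dvd.dvd.mul_right (dvd_pow ih two_ne_zero) _)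

lemma step (Q : Polynomial (PowerSeries R)) (a b : PowerSeries R) (ha : X ∣ a) (hb : X ∣ b)
    (k : ℕ) (h : X ^ k ∣ a - b) : X ^ (k + 1) ∣ a ^ 2 * Q.eval a - b ^ 2 * Q.eval b := by
  obtain ⟨q, hq⟩ := Polynomial.sub_dvd_eval_sub a b Q
  have h1 : a ^ 2 * Q.eval a - b ^ 2 * Q.eval b =
      (a - b) * ((a + b) * Q.eval a + b ^ 2 * q) := by
    have h2 : Q.eval a = Q.eval b + (a - b) * q := by rw [← hq]; ring
    rw [h2]
    ring
  rw [h1, pow_succ]
  refine mul_dvd_mul h (dvd_add (Dvd.dvd.mul_right (dvd_add ha hb) _) ?_)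
  exact Dvd.dvd.mul_right (dvd_pow hb two_ne_zero) _

lemma it_succ_sub (Q : Polynomial (PowerSeries R)) (y : PowerSeries R) (hy : X ∣ y) (k : ℕ) :
    X ^ (k + 1) ∣ it Q y (k + 1) - it Q y k := by
  induction k with
  | zero =>
    rw [zero_add, pow_one]
    exact dvd_sub (X_dvd_it Q y hy 1) (X_dvd_it Q y hy 0)
  | succ k ih =>
    have h1 : it Q y (k + 1 + 1) - it Q y (k + 1) =
        -((it Q y (k + 1)) ^ 2 * Q.eval (it Q y (k + 1)) -
          (it Q y k) ^ 2 * Q.eval (it Q y k)) := by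
      change (y - _) - (y - _) = _
      ring
    rw [h1]
    exact (dvd_neg).mpr (step Q _ _ (X_dvd_it Q y hy _) (X_dvd_it Q y hy _) _ ih)

lemma it_sub (Q : Polynomial (PowerSeries R)) (y : PowerSeries R) (hy : X ∣ y) (k j : ℕ) :
    X ^ (k + 1) ∣ it Q y (k + j) - it Q y k := by
  induction j with
  | zero => rw [add_zero, sub_self]; exact dvd_zero _
  | succ j ih =>
    have h1 : it Q y (k + (j + 1)) - it Q y k =
        (it Q y (k + j + 1) - it Q y (k + j)) + (it Q y (k + j) - it Q y k) := by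
      rw [← add_assoc]
      ring
    rw [h1]
    refine dvd_add ((pow_dvd_pow _ (by omega)).trans (it_succ_sub Q y hy (k + j))) ih

/-- A formal inverse function. -/
lemma exists_inv (Q : Polynomial (PowerSeries R)) (y : PowerSeries R) (hy : X ∣ y) :
    ∃ z : PowerSeries R, X ∣ z ∧ z + z ^ 2 * Q.eval z = y := by
  classical
  set z : PowerSeries R := PowerSeries.mk fun n => coeff n (it Q y n) with hz
  have h1 : ∀ k, X ^ (k + 1) ∣ z - it Q y k := by
    intro k
    rw [X_pow_dvd_iff]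
    intro n hn
    rw [map_sub, hz, coeff_mk]
    have h2 := it_sub Q y hy n (k - n)
    rw [show n + (k - n) = k by omega, X_pow_dvd_iff] at h2
    have h3 := h2 n (by omega)
    rw [map_sub] at h3
    rw [← neg_sub, h3, neg_zero]
  have hzX : X ∣ z := by
    have h2 := h1 0
    rw [zero_add, pow_one] at h2
    have h3 : z = (z - it Q y 0) + it Q y 0 := by ring
    rw [h3]
    exact dvd_add h2 (X_dvd_it Q y hy 0)
  refine ⟨z, hzX, ?_⟩
  have h4 : ∀ k, X ^ (k + 1) ∣ z + z ^ 2 * Q.eval z - y := by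
    intro k
    have h5 := step Q z (it Q y k) hzX (X_dvd_it Q y hy k) (k + 1) (h1 k)
    have h6 := h1 (k + 1)
    have h7 : z + z ^ 2 * Q.eval z - y = (z - it Q y (k + 1)) +
        (z ^ 2 * Q.eval z - (it Q y k) ^ 2 * Q.eval (it Q y k)) := by
      change _ = (z - (y - _)) + _
      ring
    rw [h7]
    exact dvd_add ((pow_dvd_pow _ (by omega)).trans h6) ((pow_dvd_pow _ (by omega)).trans h5)
  have h8 : z + z ^ 2 * Q.eval z - y = 0 := by
    ext n
    have h9 := h4 n
    rw [X_pow_dvd_iff] at h9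
    rw [h9 n (by omega), map_zero]
  exact sub_eq_zero.mp h8

end

/-- **Integral roots.** -/
theorem rootG : S_RootG := by
  intro R _ m hm y hy
  classical
  have hyX : X ∣ y := X_dvd_iff.mpr hy
  -- the unit
  set u : PowerSeries R := 1 + (m : PowerSeries R) ^ 2 * y with hu
  have hu1 : IsUnit u := by
    rw [PowerSeries.isUnit_iff_constantCoeff, hu, map_add, map_mul, hy, mul_zero, add_zero,
      map_one]
    exact isUnit_one
  obtain ⟨v, hv⟩ := hu1.exists_right_inv
  -- `(1 + m z) ^ m = 1 + m ^ 2 (z + z ^ 2 Q(z))`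
  set Q : Polynomial (PowerSeries R) := ∑ k ∈ range (m - 1),
    Polynomial.C ((m.choose (k + 2) : PowerSeries R) * (m : PowerSeries R) ^ k) *
      Polynomial.X ^ k with hQ
  have hpow : ∀ z : PowerSeries R, (1 + (m : PowerSeries R) * z) ^ m =
      1 + (m : PowerSeries R) ^ 2 * (z + z ^ 2 * Q.eval z) := by
    intro z
    obtain ⟨n, rfl⟩ : ∃ n, m = n + 1 := ⟨m - 1, by omega⟩
    rw [add_comm (1 : PowerSeries R), add_pow, sum_range_succ', sum_range_succ']
    have h1 : ∑ k ∈ range n, ((((n + 1 : ℕ) : PowerSeries R)) * z) ^ (k + 1 + 1) *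
        1 ^ (n + 1 - (k + 1 + 1)) * (((n + 1).choose (k + 1 + 1) : ℕ) : PowerSeries R) =
        (((n + 1 : ℕ) : PowerSeries R)) ^ 2 * (z ^ 2 * Q.eval z) := by
      rw [hQ, Nat.add_sub_cancel, Polynomial.eval_finsetSum, mul_sum, mul_sum]
      refine sum_congr rfl fun k _ => ?_
      rw [Polynomial.eval_mul, Polynomial.eval_C, Polynomial.eval_pow, Polynomial.eval_X, one_pow]
      ring
    rw [h1]
    simp only [zero_add, pow_one, pow_zero, one_pow, mul_one, Nat.choose_one_right,
      Nat.choose_zero_right, Nat.cast_one]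
    ring
  obtain ⟨z, hz, hzy⟩ := exists_inv Q (-(y * v)) ((dvd_neg).mpr (hyX.mul_right v))
  refine ⟨1 + (m : PowerSeries R) * z, ?_, ?_⟩
  · rw [map_add, map_mul, X_dvd_iff.mp hz, mul_zero, add_zero, map_one]
  · rw [hpow, hzy]
    have h2 : (1 + (m : PowerSeries R) ^ 2 * -(y * v)) * u =
        u - (m : PowerSeries R) ^ 2 * y * (u * v) := by ring
    rw [h2, hv, hu]
    ring

end Pool.Agent.Q267.AM
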