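import Pool.Agent.Q267.AP.Ser
import Pool.Agent.Q267.AM.Root

/-!
# The determinant of the periods

The case of a general exponent `m` (the file `Pool/Agent/Q267/AP/Ser.lean` is the case `m ≤ 2`).
-/

set_option autoImplicit false

open Finset

namespace Pool.Agent.Q267.AM

open Pool.Agent.Q267.ST Pool.Agent.Q267.AP
open Pool.Agent.Q267.DC (hm hm_map det_hm_map)
section series

variable {ι J : Type} [Fintype ι] [DecidableEq ι] [Fintype J] [DecidableEq J]
variable {A : Type} [CommRing A] [IsDomain A] [CharZero A]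

/-- **The series of the family.** -/
theorem series (hLip : S_Lip) (hadd : S_DFadd) (hmul : S_DFmul) (hpoly : S_DFpoly)
    (hto : S_DFtoODE) (hroot : S_RootG) (hNorm : S_Norm) (hConst : S_Const) (hPerD : S_PerD)
    (o : ι) (m E N : ℕ) (hm12 : 1 ≤ m) (hN : m * (Fintype.card ι - 1) + 1 ≤ N)
    (w : J → ι →₀ ℕ) (hw1 : ∀ j i, 1 ≤ w j i) (hwE : ∀ j, ∑ i, w j i = E + (Fintype.card ι - 1))
    (μ γ : A) (hμ : (m : A) ^ 2 * μ = 1) (c c' : J → A) (hc : ∀ j, c j * c' j = 1)
    (M : J → Matrix ι ι A) (h : MvPolynomial ι A) (r : J → MvPolynomial ι A)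
    (g : MvPolynomial ι (Polynomial A))
    (hr : ∀ j, lin (M j) h = (∏ i ∈ univ.erase o, MvPolynomial.X i) * r j)
    (hrE : ∀ j, ∀ u ∈ (r j).support, ∑ i, u i = E)
    (hrc : ∀ j, MvPolynomial.coeff (Finsupp.single o E) (r j) = c j) :
    ∃ Ψ G : J → PowerSeries (LP ι A), (∀ j, Ψ j ^ m * G j = 1) ∧
      (∀ j, chart (om o) γ N (M j)
        (MvPolynomial.map Polynomial.C h ^ m + MvPolynomial.C Polynomial.X * g) =
          PowerSeries.X ^ (m * ∑ i, om o i) * G j) ∧
      HasODE (pmat o w M Ψ).det ∧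
      PowerSeries.constantCoeff (pmat o w M Ψ).det = (∏ j, c' j) * (vert o w M).det := by
  have hm1 : 1 ≤ m := by omega
  have h1 := fun j => hNorm ι A o m E N (c j) (c' j) μ γ (M j) h (r j) g (hc j) hμ (hr j) (hrE j)
    (hrc j) hN
  choose y hy0 hy using h1
  have h2 : ∀ j, ∃ ψ : PowerSeries (LP ι A), PowerSeries.constantCoeff ψ = 1 ∧
      ψ ^ m * (1 + (m : PowerSeries (LP ι A)) ^ 2 * (y j : PowerSeries (LP ι A))) = 1 := by
    intro j
    refine hroot (LP ι A) m hm12 _ ?_
    rw [← PowerSeries.coeff_zero_eq_constantCoeff_apply, Polynomial.coeff_coe]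
    exact hy0 j
  choose ψ hψ1 hψ2 using h2
  have hode : ∀ j u, HasODE (cx u (ψ j)) := by
    intro j u
    refine hLip ι A m (1 + (m : Polynomial (LP ι A)) ^ 2 * y j) (ψ j) (by omega) ?_ _
    rw [← hψ2 j]
    congr 1
    simp only [← Polynomial.coeToPowerSeries.ringHom_apply, map_add, map_mul, map_pow, map_one,
      map_natCast]
  refine ⟨fun j => cst (PowerSeries.C (c' j)) * xm (fun i => if i = o then (-E : ℤ) else -1) * ψ j,
    fun j => cst (PowerSeries.C (c j ^ m)) * xm (fun i => if i = o then (m * E : ℤ) else m) *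
            (1 + (m : PowerSeries (LP ι A)) ^ 2 * (y j : PowerSeries (LP ι A))),
    fun j => ?_, fun j => ?_, ?_, ?_⟩
  · have h3 : (cst (PowerSeries.C (c' j)) : PowerSeries (LP ι A)) ^ m *
        cst (PowerSeries.C (c j ^ m)) = 1 := by
      rw [← map_pow, ← map_mul, ← map_pow, ← map_mul, ← mul_pow, mul_comm (c' j), hc, one_pow,
        map_one, map_one]
    have h4 : (xm (fun i => if i = o then (-E : ℤ) else -1) : PowerSeries (LP ι A)) ^ m *
        xm (fun i => if i = o then (m * E : ℤ) else m) = 1 := by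
      rw [xm_pow, ← xm_add, ← xm_zero]
      congr 1
      funext i
      change m • (if i = o then (-E : ℤ) else -1) + (if i = o then (m * E : ℤ) else m) = 0
      rw [nsmul_eq_mul]
      split_ifs
      · ring
      · ring
    calc _ = ((cst (PowerSeries.C (c' j)) : PowerSeries (LP ι A)) ^ m *
          cst (PowerSeries.C (c j ^ m))) *
          ((xm (fun i => if i = o then (-E : ℤ) else -1) : PowerSeries (LP ι A)) ^ m *
            xm (fun i => if i = o then (m * E : ℤ) else m)) *
          (ψ j ^ m * (1 + (m : PowerSeries (LP ι A)) ^ 2 * (y j : PowerSeries (LP ι A)))) := by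
          ring
      _ = 1 := by rw [h3, h4, hψ2, one_mul, one_mul]
  · rw [sum_om]
    exact hy j
  · apply hto
    refine dfin_det hadd hmul hpoly _ fun j l => ?_
    exact hPerD ι A (om o) (c' j) _ (M j) (ψ j) (w l) (hode j)
  · have h3 : (pmat o w M fun j => cst (PowerSeries.C (c' j)) *
        xm (fun i => if i = o then (-E : ℤ) else -1) * ψ j).map
          (PowerSeries.constantCoeff (R := A)) = Matrix.diagonal c' * vert o w M := by
      ext j l
      rw [Matrix.map_apply, Matrix.diagonal_mul]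
      exact hConst ι A o E (c' j) (M j) (ψ j) (w l) (hψ1 j) (hw1 l) (hwE l)
    rw [RingHom.map_det]
    change ((pmat o w M fun j => cst (PowerSeries.C (c' j)) *
        xm (fun i => if i = o then (-E : ℤ) else -1) * ψ j).map
          (PowerSeries.constantCoeff (R := A))).det = _
    rw [h3, Matrix.det_mul, Matrix.det_diagonal]

end series

end Pool.Agent.Q267.AM
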