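import Pool.Agent.Q267.AP.Dbl
import Pool.Agent.Q267.AM.Soft

/-!
# All values of the parameter

The case of a general exponent `m` (the file `Pool/Agent/Q267/AP/Dbl.lean` is the case `m ≤ 2`).
-/

set_option autoImplicit false

open Finset

namespace Pool.Agent.Q267.AM

open Pool.Agent.Q267.ST Pool.Agent.Q267.AP
open Pool.Agent.Q267.DC (hm hm_map det_hm_map)
section two

variable {ι J : Type} [Fintype ι] [DecidableEq ι] [Fintype J] [DecidableEq J]
variable {A : Type} [CommRing A] [IsDomain A] [CharZero A]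

/-- **The soft Stepanov theorem for families through a hyperplane arrangement.** -/
theorem soft2 (hSoft : S_Soft) (hLip : S_Lip) (hadd : S_DFadd) (hmul : S_DFmul)
    (hpoly : S_DFpoly) (hto : S_DFtoODE) (hroot : S_RootG) (hNorm : S_Norm) (hConst : S_Const)
    (hPerD : S_PerD) (hStar : S_Star)
    (o : ι) (m E : ℕ) (hm12 : 1 ≤ m)
    (w : J → ι →₀ ℕ) (hw : Function.Injective w) (hw1 : ∀ j i, 1 ≤ w j i)
    (hwE : ∀ j, ∑ i, w j i = E + (Fintype.card ι - 1))
    (μ : A) (hμ : (m : A) ^ 2 * μ = 1) (c c' : J → A) (hc : ∀ j, c j * c' j = 1)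
    (M : J → Matrix ι ι A) (hM : ∀ j, IsUnit (M j).det) (h : MvPolynomial ι A)
    (r : J → MvPolynomial ι A) (g : MvPolynomial ι (Polynomial A))
    (hr : ∀ j, lin (M j) h = (∏ i ∈ univ.erase o, MvPolynomial.X i) * r j)
    (hrE : ∀ j, ∀ u ∈ (r j).support, ∑ i, u i = E)
    (hrc : ∀ j, MvPolynomial.coeff (Finsupp.single o E) (r j) = c j)
    (hV : (vert o w M).det ≠ 0) (ε : ℝ) (hε : 0 < ε) (H : ℕ)
    (hH : ∀ v, (MvPolynomial.coeff v (MvPolynomial.map Polynomial.C h ^ m +
      MvPolynomial.C Polynomial.X * g)).natDegree ≤ H) :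
    ∃ (p₀ : ℕ) (a : A), a ≠ 0 ∧ ∀ (p : ℕ) (k : Type) [Field k] [CharP k p] (φ : A →+* k),
      p.Prime → p₀ ≤ p → φ a ≠ 0 → ∀ e : ℕ, e * m + 1 = p →
      (∀ l, ∀ v ∈ (MvPolynomial.monomial (w l) 1 *
        (MvPolynomial.map (Polynomial.mapRingHom φ) (MvPolynomial.map Polynomial.C h ^ m +
          MvPolynomial.C Polynomial.X * g)) ^ e).support,
        (∃ v' : ι →₀ ℕ, v = p • v') → ∃ i, v = p • w i) →
      ∀ Z : Finset k, (∀ t ∈ Z, t ^ p = t ∧ (hm e p w (MvPolynomial.map
        (Polynomial.mapRingHom φ) (MvPolynomial.map Polynomial.C h ^ m +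
          MvPolynomial.C Polynomial.X * g))).det.eval t = 0) →
      (Z.card : ℝ) ≤ ε * p := by
  classical
  set f := MvPolynomial.map Polynomial.C h ^ m + MvPolynomial.C Polynomial.X * g with hf
  set f' : MvPolynomial ι (Polynomial (Polynomial A)) :=
    MvPolynomial.map Polynomial.C (MvPolynomial.map Polynomial.C h) ^ m +
      MvPolynomial.C Polynomial.X *
        MvPolynomial.map (Polynomial.mapRingHom (Polynomial.C : A →+* Polynomial A)) g with hf'
  have hff : f' = MvPolynomial.map (Polynomial.mapRingHom (Polynomial.C : A →+* Polynomial A)) f := by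
    rw [hf, map_add, map_mul, map_pow, MvPolynomial.map_C, Polynomial.coe_mapRingHom,
      Polynomial.map_X, hf', MvPolynomial.map_map, MvPolynomial.map_map]
    have h0 : (Polynomial.C : Polynomial A →+* _).comp (Polynomial.C : A →+* Polynomial A) =
        (Polynomial.mapRingHom (Polynomial.C : A →+* Polynomial A)).comp Polynomial.C := by
      ext a
      simp
    rw [h0]
  have hH' : ∀ v, (MvPolynomial.coeff v f').natDegree ≤ H := by
    intro v
    rw [hff, MvPolynomial.coeff_map, Polynomial.coe_mapRingHom]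
    exact (Polynomial.natDegree_map_le).trans (hH v)
  have hV' : (vert o w (fun j => (M j).map (Polynomial.C : A →+* Polynomial A))).det ≠ 0 := by
    have h1 : vert o w (fun j => (M j).map (Polynomial.C : A →+* Polynomial A)) =
        (vert o w M).map (Polynomial.C : A →+* Polynomial A) := by
      ext1 j l
      rw [Matrix.map_apply]
      change MvPolynomial.eval (fun i => (Polynomial.C (M j i o) : Polynomial A))
        (MvPolynomial.monomial (w l - one ι) (1 : Polynomial A)) = Polynomial.C
          (MvPolynomial.eval (fun i => M j i o) (MvPolynomial.monomial (w l - one ι) (1 : A)))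
      rw [MvPolynomial.eval_monomial, MvPolynomial.eval_monomial, one_mul, one_mul, Finsupp.prod,
        Finsupp.prod, map_prod]
      exact prod_congr rfl fun i _ => by rw [map_pow]
    rw [h1]
    have h2 := RingHom.map_det (Polynomial.C : A →+* Polynomial A) (vert o w M)
    have h3 : ((vert o w M).map (Polynomial.C : A →+* Polynomial A)).det =
        Polynomial.C (vert o w M).det := h2.symm
    rw [h3]
    exact Polynomial.C_ne_zero.mpr hV
  obtain ⟨p₁, a', ha', hS⟩ := soft1 hSoft hLip hadd hmul hpoly hto hroot hNorm hConst hPerD hStar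
    o m E (m * (Fintype.card ι - 1) + 1) hm12 le_rfl w hw hw1 hwE (Polynomial.C μ)
    (Polynomial.X : Polynomial A)
    (by rw [← Polynomial.C_eq_natCast, ← Polynomial.C_pow, ← Polynomial.C_mul, hμ,
      Polynomial.C_1])
    (fun j => Polynomial.C (c j)) (fun j => Polynomial.C (c' j))
    (fun j => by rw [← Polynomial.C_mul, hc j, Polynomial.C_1])
    (fun j => (M j).map (Polynomial.C : A →+* Polynomial A))
    (fun j => by
      have h1 := (hM j).map (Polynomial.C : A →+* Polynomial A)
      rw [RingHom.map_det] at h1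
      exact h1)
    (MvPolynomial.map Polynomial.C h) (fun j => MvPolynomial.map Polynomial.C (r j))
    (MvPolynomial.map (Polynomial.mapRingHom (Polynomial.C : A →+* Polynomial A)) g)
    (fun j => by
      rw [lin_map_C, hr j, map_mul, map_prod]
      congr 1
      exact prod_congr rfl fun i _ => MvPolynomial.map_X _ _)
    (fun j u hu => hrE j u (MvPolynomial.support_map_subset _ _ hu))
    (fun j => by rw [MvPolynomial.coeff_map, hrc j])
    hV' (ε / 4) (by positivity) H hH'
  refine ⟨max (max p₁ 2) (⌈(2 * (2 * (a'.natDegree : ℝ) + 1)) / ε⌉₊), a'.leadingCoeff,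
    Polynomial.leadingCoeff_ne_zero.mpr ha', ?_⟩
  intro p k _ _ φ hpp hp0 hφ e he hsupp Z hZ
  have hp1 : p₁ ≤ p := (le_max_left _ _).trans ((le_max_left _ _).trans hp0)
  have hp3 : (2 * (2 * (a'.natDegree : ℝ) + 1)) / ε ≤ p :=
    (Nat.le_ceil _).trans (by exact_mod_cast (le_max_right _ _).trans hp0)
  have hp2 : (2 : ℝ) ≤ p := by exact_mod_cast hpp.two_le
  have hak : a'.map φ ≠ 0 := by
    intro h0
    have h1 := congrArg (fun q => Polynomial.coeff q a'.natDegree) h0
    simp only [Polynomial.coeff_map, Polynomial.coeff_zero] at h1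
    exact hφ h1
  have hBc : (a'.map φ).roots.toFinset.card ≤ a'.natDegree :=
    (Multiset.toFinset_card_le _).trans ((Polynomial.card_roots' _).trans
      Polynomial.natDegree_map_le)
  have hfk : ∀ g₀ : k, MvPolynomial.map (Polynomial.mapRingHom
      (Polynomial.eval₂RingHom φ g₀)) f' = MvPolynomial.map (Polynomial.mapRingHom φ) f := by
    intro g₀
    rw [hff, MvPolynomial.map_map]
    refine RingHom.congr_fun (congrArg _ ?_) f
    rw [Polynomial.mapRingHom_comp]
    congr 1
    ext a
    simp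
  have key := dbl hpp (m * (Fintype.card ι - 1) + 1) a'.natDegree (ε / 4) (by positivity)
    (a'.map φ).roots.toFinset Z hBc (fun t ht => (hZ t ht).1)
    (fun g₀ hg₀ hgB T hT => by
      have hφ' : Polynomial.eval₂RingHom φ g₀ a' ≠ 0 := by
        rw [Polynomial.coe_eval₂RingHom, ← Polynomial.eval_map]
        intro h0
        apply hgB
        rw [Multiset.mem_toFinset, Polynomial.mem_roots hak]
        exact h0
      refine hS p k (Polynomial.eval₂RingHom φ g₀) hpp hp1 hφ' e he ?_ T ?_
      · change ∀ l, ∀ v ∈ (MvPolynomial.monomial (w l) 1 *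
          (MvPolynomial.map (Polynomial.mapRingHom (Polynomial.eval₂RingHom φ g₀)) f') ^ e).support,
          (∃ v' : ι →₀ ℕ, v = p • v') → ∃ i, v = p • w i
        rw [hfk g₀]
        exact hsupp
      · intro s hs
        obtain ⟨hs1, hs2⟩ := hT s hs
        refine ⟨hs1, ?_⟩
        change (hm e p w (MvPolynomial.map (Polynomial.mapRingHom
          (Polynomial.eval₂RingHom φ g₀)) f')).det.eval _ = 0
        rw [hfk g₀, Polynomial.coe_eval₂RingHom, Polynomial.eval₂_X]
        exact (hZ _ hs2).2)
  have h4 : (2 * (2 * (a'.natDegree : ℝ) + 1)) ≤ p * ε := by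
    rwa [div_le_iff₀ hε] at hp3
  have hpos : (0 : ℝ) < (p : ℝ) - 1 := by linarith
  have h5 : ε / 4 * p * p + a'.natDegree * p ≤ (ε * p - 1) * (p - 1) := by
    have hd : (0 : ℝ) ≤ a'.natDegree := Nat.cast_nonneg _
    nlinarith [mul_le_mul_of_nonneg_right h4 (by linarith : (0 : ℝ) ≤ (p : ℝ)),
      mul_nonneg hε.le (mul_nonneg (by linarith : (0 : ℝ) ≤ (p : ℝ))
        (by linarith : (0 : ℝ) ≤ (p : ℝ) - 2)), mul_nonneg hd (by linarith : (0 : ℝ) ≤ (p : ℝ) - 2)]
  have h6 := le_of_mul_le_mul_right (key.trans h5) hpos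
  linarith

end two

end Pool.Agent.Q267.AM
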