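import Pool.Agent.Q267.AP.Conc
import Pool.Agent.Q267.AM.Dbl

/-!
# Families of forms through a hyperplane arrangement

The case of a general exponent `m` (the file `Pool/Agent/Q267/AP/Conc.lean` is the case `m ≤ 2`).
-/

set_option autoImplicit false

open Finset

namespace Pool.Agent.Q267.AM

open Pool.Agent.Q267.ST Pool.Agent.Q267.AP
open Pool.Agent.Q267.DC (hm hm_map det_hm_map)
/-- The families with an arrangement at `0`, over a ring. -/
theorem conc (hNorm : S_Norm) (hConst : S_Const) (hPerD : S_PerD) (hStar : S_Star)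
    (hCharts : S_Charts) (n e m : ℕ) (hm12 : 1 ≤ m) {A : Type} [CommRing A] [IsDomain A]
    [CharZero A] (l : Fin e → Fin (n + 1) → A)
    (hl : ∀ σ : Fin (n + 1) → Fin e, Function.Injective σ →
      IsUnit (Matrix.of fun i j => l (σ i) j).det) (μ : A) (hμ : (m : A) ^ 2 * μ = 1)
    (f : MvPolynomial (Fin (n + 1)) (Polynomial A)) (hf : ∀ u ∈ f.support, ∑ i, u i = m * e)
    (hf0 : MvPolynomial.map (Polynomial.evalRingHom 0) f = (∏ i, lf (l i)) ^ m)
    (ε : ℝ) (hε : 0 < ε) :
    ∃ (p₀ : ℕ) (a : A), a ≠ 0 ∧ ∀ (p : ℕ) (k : Type) [Field k] [CharP k p] (φ : A →+* k),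
      p.Prime → p₀ ≤ p → φ a ≠ 0 → ∀ e' : ℕ, e' * m + 1 = p →
      ∀ Z : Finset k, (∀ t ∈ Z, t ^ p = t ∧ (hm e' p (wexp n e) (MvPolynomial.map
        (Polynomial.mapRingHom φ) f)).det.eval t = 0) → (Z.card : ℝ) ≤ ε * p := by
  classical
  obtain ⟨M, r, hMr, hV⟩ := hCharts n e A l hl
  obtain ⟨g, hg⟩ : ∃ g : MvPolynomial (Fin (n + 1)) (Polynomial A),
      f = MvPolynomial.map Polynomial.C (∏ i, lf (l i)) ^ m + MvPolynomial.C Polynomial.X * g := by
    refine ⟨∑ v ∈ f.support, MvPolynomial.monomial v (MvPolynomial.coeff v f).divX, ?_⟩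
    rw [← map_pow, ← hf0]
    ext1 v
    rw [MvPolynomial.coeff_add, MvPolynomial.coeff_map, MvPolynomial.coeff_map,
      MvPolynomial.coeff_C_mul, MvPolynomial.coeff_sum]
    have h1 : ∑ u ∈ f.support, MvPolynomial.coeff v
        (MvPolynomial.monomial u (MvPolynomial.coeff u f).divX) = (MvPolynomial.coeff v f).divX := by
      rw [Finset.sum_eq_single v]
      · rw [MvPolynomial.coeff_monomial, if_pos rfl]
      · intro u _ hu
        rw [MvPolynomial.coeff_monomial, if_neg hu]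
      · intro hv
        rw [MvPolynomial.notMem_support_iff.mp hv]
        simp
    rw [h1, Polynomial.coe_evalRingHom, ← Polynomial.coeff_zero_eq_eval_zero]
    refine (Polynomial.X_mul_divX_add (MvPolynomial.coeff v f)).symm.trans ?_
    rw [_root_.add_comm]
  have hc : ∀ j, ∃ c' : A, MvPolynomial.coeff (Finsupp.single 0 (e - n)) (r j) * c' = 1 :=
    fun j => (hMr j).2.2.2.exists_right_inv
  choose c' hc' using hc
  obtain ⟨p₀, a, ha, h⟩ := soft2 soft_stepanov lip Pool.Agent.Q121.ST.dfAdd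
    Pool.Agent.Q121.ST.dfMul Pool.Agent.Q121.ST.dfPoly Pool.Agent.Q121.ST.dfToODE
    rootG hNorm hConst hPerD hStar (0 : Fin (n + 1)) m (e - n) hm12
    (wexp n e) (wexp_inj n e) (fun j i => (j.2.1 i : 1 ≤ (j.1 i : ℕ)))
    (fun j => by
      have h1 : ∑ i, wexp n e j i = e := j.2.2
      have h2 : ∑ i : Fin (n + 1), 1 ≤ ∑ i, wexp n e j i := sum_le_sum fun i _ => j.2.1 i
      rw [sum_const, card_univ, Fintype.card_fin, smul_eq_mul, mul_one] at h2
      rw [Fintype.card_fin]
      omega) μ hμ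
    (fun j => MvPolynomial.coeff (Finsupp.single 0 (e - n)) (r j)) c' hc' M
    (fun j => (hMr j).1) (∏ i, lf (l i)) r g (fun j => (hMr j).2.1) (fun j => (hMr j).2.2.1)
    (fun j => rfl) hV ε hε (f.support.sup fun v => (MvPolynomial.coeff v f).natDegree)
    (fun v => by
      rw [← hg]
      by_cases hv : v ∈ f.support
      · exact le_sup (f := fun v => (MvPolynomial.coeff v f).natDegree) hv
      · rw [MvPolynomial.notMem_support_iff.mp hv, Polynomial.natDegree_zero]
        exact Nat.zero_le _)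
  rw [← hg] at h
  refine ⟨p₀, a, ha, ?_⟩
  intro p k _ _ φ hpp hp0 hφ e' he Z hZ
  exact h p k φ hpp hp0 hφ e' he (fun l v hv hv' => supp_cond hpp.ne_zero he _
    (fun u hu => hf u (MvPolynomial.support_map_subset _ _ hu)) l v hv hv') Z hZ

end Pool.Agent.Q267.AM
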