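import Pool.Agent.Q267.AM.Place
import Pool.Agent.Q267.AM.Gen

/-!
# Finitely many families through arrangements, exponent `(p - 1) / m`
-/

set_option autoImplicit false

open Finset

namespace Pool.Agent.Q267.AM

open Pool.Agent.Q267.ST Pool.Agent.Q267.AP
open NumberField IsDedekindDomain
open Pool.Agent.Q267.OD (charP_res finite_mem red)
open Pool.Agent.Q267.DC (hm hm_map det_hm_map card_res)

section

variable {K : Type} [Field K] [NumberField K] {n : ℕ}

/-- A primitive `m`-th root of unity and a place `v` of prime norm `p` which does not divide `m`: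
`m` divides `p - 1`. -/
lemma root_place {m : ℕ} {ζ : K} (hζ : IsPrimitiveRoot ζ m) (hm1 : 1 ≤ m)
    (v : HeightOneSpectrum (𝓞 K)) (hv : (Ideal.absNorm v.asIdeal).Prime)
    (hmv : (m : 𝓞 K) ∉ v.asIdeal) : ∃ e' : ℕ, e' * m + 1 = Ideal.absNorm v.asIdeal := by
  classical
  obtain ⟨k, rfl⟩ : ∃ k, m = k + 1 := ⟨m - 1, by omega⟩
  have hint : IsIntegral ℤ ζ := hζ.isIntegral (by omega)
  set z : 𝓞 K := ⟨ζ, hint⟩ with hz
  have hzζ : algebraMap (𝓞 K) K z = ζ := rfl
  have hprim : IsPrimitiveRoot z (k + 1) := by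
    refine IsPrimitiveRoot.of_map_of_injective (f := algebraMap (𝓞 K) K) ?_
      (FaithfulSMul.algebraMap_injective (𝓞 K) K)
    rw [hzζ]
    exact hζ
  have hprod := hprim.prod_one_sub_pow_eq_order
  set κ := v.asIdeal.ResidueField with hκ
  have hcn := card_res v
  have hfinite : Finite κ := Nat.finite_of_card_ne_zero (by rw [hcn]; exact hv.ne_zero)
  have : Fintype κ := Fintype.ofFinite _
  rw [Nat.card_eq_fintype_card] at hcn
  set y : κ := algebraMap (𝓞 K) κ z with hy
  have hy1 : y ^ (k + 1) = 1 := by rw [hy, ← map_pow, hprim.pow_eq_one, map_one]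
  have hyne : ∀ j ∈ range k, y ^ (j + 1) ≠ 1 := by
    intro j hj h0
    apply hmv
    rw [← Ideal.algebraMap_residueField_eq_zero]
    have h1 := congrArg (algebraMap (𝓞 K) κ) hprod
    rw [map_prod, prod_eq_zero hj] at h1
    · rw [Nat.cast_add, Nat.cast_one]
      exact h1.symm
    · rw [map_sub, map_pow, map_one, ← hy, h0, sub_self]
  have hord : orderOf y = k + 1 := by
    rw [orderOf_eq_iff (by omega)]
    refine ⟨hy1, fun j hj hj0 => ?_⟩
    have := hyne (j - 1) (by rw [mem_range]; omega)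
    rwa [show j - 1 + 1 = j by omega] at this
  have hy0 : y ≠ 0 := by
    intro h0
    rw [h0, zero_pow (by omega)] at hy1
    exact zero_ne_one hy1
  have hdvd : k + 1 ∣ Fintype.card κ - 1 := by
    rw [← hord]
    exact orderOf_dvd_of_pow_eq_one (FiniteField.pow_card_sub_one_eq_one y hy0)
  obtain ⟨e', he⟩ := hdvd
  refine ⟨e', ?_⟩
  have h1 := hv.one_lt
  rw [hcn] at he
  rw [mul_comm, ← he]
  omega

/-- `m` and `Δ(t)` are prime to `v` and the Hasse-Witt matrices are invertible. -/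
def GoodJ (m : ℕ) (J : Finset ℕ) (e : ℕ → ℕ) (Δ : Polynomial (𝓞 K))
    (F : ℕ → MvPolynomial (Fin (n + 1)) (Polynomial (𝓞 K))) (t : ℕ)
    (v : HeightOneSpectrum (𝓞 K)) : Prop :=
  (m : 𝓞 K) ∉ v.asIdeal ∧ Δ.eval (t : 𝓞 K) ∉ v.asIdeal ∧ ∀ j ∈ J,
    (hm ((Ideal.absNorm v.asIdeal - 1) / m) (Ideal.absNorm v.asIdeal) (wexp n (e j))
      (red v (mem (F j) t))).det ≠ 0

lemma goodJ_mod (m : ℕ) (J : Finset ℕ) (e : ℕ → ℕ) (Δ : Polynomial (𝓞 K))
    (F : ℕ → MvPolynomial (Fin (n + 1)) (Polynomial (𝓞 K)))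
    (v : HeightOneSpectrum (𝓞 K)) (hv : (Ideal.absNorm v.asIdeal).Prime) (t : ℕ) :
    GoodJ m J e Δ F t v ↔ GoodJ m J e Δ F (t % Ideal.absNorm v.asIdeal) v := by
  have := charP_res v hv
  have h1 : (t : v.asIdeal.ResidueField) =
      ((t % Ideal.absNorm v.asIdeal : ℕ) : v.asIdeal.ResidueField) :=
    (CharP.natCast_eq_natCast' _ (Ideal.absNorm v.asIdeal) (Nat.mod_modEq _ _)).symm
  have h2 : ∀ t : ℕ, Δ.eval (t : 𝓞 K) ∈ v.asIdeal ↔
      (Δ.map (algebraMap (𝓞 K) v.asIdeal.ResidueField)).eval (t : v.asIdeal.ResidueField) = 0 := by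
    intro t
    rw [← Ideal.algebraMap_residueField_eq_zero, Polynomial.eval_map,
      ← map_natCast (algebraMap (𝓞 K) v.asIdeal.ResidueField) t, Polynomial.eval₂_at_apply]
  unfold GoodJ
  simp only [red_mem]
  rw [h2, h2, ← h1]

open Classical in
/-- **Few members are bad modulo a place.** -/
theorem fewJ (m : ℕ) (hm1 : 1 ≤ m) (ζ : K) (hζ : IsPrimitiveRoot ζ m) (J : Finset ℕ) (e : ℕ → ℕ)
    (F : ℕ → MvPolynomial (Fin (n + 1)) (Polynomial (𝓞 K)))
    (hF : ∀ j ∈ J, ∀ u ∈ (F j).support, ∑ i, u i = m * e j)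
    (l : (j : ℕ) → Fin (e j) → Fin (n + 1) → AlgebraicClosure K)
    (hl : ∀ j ∈ J, ∀ σ : Fin (n + 1) → Fin (e j), Function.Injective σ →
      (Matrix.of fun i i' => l j (σ i) i').det ≠ 0) (harr : ∀ j ∈ J, ArrAt m (F j) (l j))
    (Δ : Polynomial (𝓞 K)) (hΔ : Δ ≠ 0) (ε : ℝ) (hε : 0 < ε) :
    {v : HeightOneSpectrum (𝓞 K) | (Ideal.absNorm v.asIdeal).Prime ∧
      ¬ (((range (Ideal.absNorm v.asIdeal)).filter fun t : ℕ => ¬ GoodJ m J e Δ F t v).card : ℝ) ≤
          ε * Ideal.absNorm v.asIdeal}.Finite := by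
  set ε' := ε / (2 * (J.card + 1)) with hε'
  have hε'0 : 0 < ε' := by positivity
  have h1 : ∀ j ∈ J, _ := fun j hj => place Pool.Agent.Q102.AP.norm Pool.Agent.Q285.AP.const perD
    (Pool.Agent.Q174.AP.star Pool.Agent.Q102.AP.cart frobG Pool.Agent.Q299.ST.cxMul)
    Pool.Agent.Q102.AP.charts Pool.Agent.Q102.AP.spread m hm1 (F j) (hF j hj) (l j) (hl j hj)
    (harr j hj) ε' hε'0
  have hm0 : (m : 𝓞 K) ≠ 0 := by
    rw [Nat.cast_ne_zero]
    omega
  refine ((((J.finite_toSet.biUnion fun j hj => h1 j (mem_coe.mp hj)).union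
    (finite_mem (K := K) (m : 𝓞 K) hm0)).union
    (finite_mem (K := K) Δ.leadingCoeff (Polynomial.leadingCoeff_ne_zero.mpr hΔ))).union
    (Pool.Agent.W352.ChAbs.finite_le (K := K) ⌈2 * (Δ.natDegree : ℝ) / ε⌉₊)).subset ?_
  rintro v ⟨hv, hv'⟩
  by_contra hno
  simp only [Set.mem_union, Set.mem_iUnion, Set.mem_ofPred_eq, not_or, not_and, not_not, not_le,
    not_exists, mem_coe] at hno
  obtain ⟨⟨⟨hplace, hvm⟩, hvΔ⟩, hvN⟩ := hno
  apply hv'
  obtain ⟨e', he⟩ := root_place hζ hm1 v hv hvm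
  have hpl : ∀ j ∈ J, _ := fun j hj => hplace j hj hv e' he
  set p := Ideal.absNorm v.asIdeal with hp
  have hchar : CharP v.asIdeal.ResidueField p := charP_res v hv
  have hfact : Fact p.Prime := ⟨hv⟩
  set κ := v.asIdeal.ResidueField with hκ
  set ρ : 𝓞 K →+* κ := algebraMap (𝓞 K) κ with hρ
  have hee : (p - 1) / m = e' := by
    rw [← he, Nat.add_sub_cancel]
    exact Nat.mul_div_cancel _ (by omega)
  have hred : ∀ (j t : ℕ), red v (mem (F j) t) =
      MvPolynomial.map (Polynomial.evalRingHom (t : κ))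
        (MvPolynomial.map (Polynomial.mapRingHom ρ) (F j)) := by
    intro j t
    unfold red mem
    rw [MvPolynomial.map_map, MvPolynomial.map_map]
    congr 2
    ext a
    · simp only [RingHom.coe_comp, Function.comp_apply, Polynomial.coe_evalRingHom,
        Polynomial.coe_mapRingHom, Polynomial.eval_C, Polynomial.map_C]
      rfl
    · simp
  set Bad := (range p).filter fun t : ℕ => ¬ GoodJ m J e Δ F t v with hBad
  set Z := Bad.image fun t : ℕ => (t : κ) with hZ
  have hZc : Z.card = Bad.card := by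
    rw [hZ, card_image_of_injOn]
    intro a ha b hb hab
    exact CharP.natCast_injOn_Iio κ p
      (Set.mem_Iio.mpr (mem_range.mp (mem_filter.mp (mem_coe.mp ha)).1))
      (Set.mem_Iio.mpr (mem_range.mp (mem_filter.mp (mem_coe.mp hb)).1)) hab
  have hΔk : Δ.map ρ ≠ 0 := by
    intro h0
    have h2 := congrArg (fun q => Polynomial.coeff q Δ.natDegree) h0
    simp only [Polynomial.coeff_map, Polynomial.coeff_zero] at h2
    rw [hρ, Ideal.algebraMap_residueField_eq_zero] at h2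
    exact hvΔ h2
  set D : ℕ → Polynomial κ := fun j => (hm e' p (wexp n (e j))
    (MvPolynomial.map (Polynomial.mapRingHom ρ) (F j))).det with hD
  have hsub : Z ⊆ (Δ.map ρ).roots.toFinset ∪
      J.biUnion fun j => Z.filter fun t => (D j).eval t = 0 := by
    intro z hz
    rw [mem_union]
    by_contra hno
    rw [not_or] at hno
    obtain ⟨h2, h3⟩ := hno
    obtain ⟨t, ht, rfl⟩ := mem_image.mp hz
    rw [Multiset.mem_toFinset, Polynomial.mem_roots hΔk] at h2
    refine (mem_filter.mp ht).2 ⟨hvm, ?_, ?_⟩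
    · intro h4
      apply h2
      rw [Polynomial.IsRoot.def, Polynomial.eval_map, hρ,
        ← map_natCast (algebraMap (𝓞 K) v.asIdeal.ResidueField) t, Polynomial.eval₂_at_apply,
        Ideal.algebraMap_residueField_eq_zero]
      exact h4
    · intro j hj h4
      apply h3
      rw [mem_biUnion]
      refine ⟨j, hj, mem_filter.mpr ⟨hz, ?_⟩⟩
      rw [hred, ← hp, hee, det_ev] at h4
      exact h4
  have h2 : ∀ j ∈ J, ((Z.filter fun t => (D j).eval t = 0).card : ℝ) ≤ ε' * p :=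
    fun j hj => hpl j hj _ fun t ht => (mem_filter.mp ht).2
  have h3 : ((Δ.map ρ).roots.toFinset.card : ℝ) ≤ Δ.natDegree := by
    exact_mod_cast (Multiset.toFinset_card_le _).trans ((Polynomial.card_roots' _).trans
      Polynomial.natDegree_map_le)
  have h4 : (Δ.natDegree : ℝ) ≤ ε / 2 * p := by
    have h5 : 2 * (Δ.natDegree : ℝ) / ε ≤ p :=
      (Nat.le_ceil _).trans (by exact_mod_cast hvN.le)
    rw [div_le_iff₀ hε] at h5
    linarith
  have h5 : (Z.card : ℝ) ≤ ((Δ.map ρ).roots.toFinset.card : ℝ) +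
      ∑ j ∈ J, ((Z.filter fun t => (D j).eval t = 0).card : ℝ) := by
    have h6 := (card_le_card hsub).trans (card_union_le _ _)
    have h7 := card_biUnion_le (s := J) (t := fun j => Z.filter fun t => (D j).eval t = 0)
    exact_mod_cast h6.trans (Nat.add_le_add_left h7 _)
  have h6 : ∑ j ∈ J, ((Z.filter fun t => (D j).eval t = 0).card : ℝ) ≤ ε / 2 * p := by
    refine (sum_le_sum h2).trans ?_
    rw [sum_const, nsmul_eq_mul]
    have h7 : (J.card : ℝ) * ε' ≤ ε / 2 := by
      rw [hε']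
      have h8 : (0 : ℝ) ≤ J.card := Nat.cast_nonneg _
      rw [mul_div_assoc', div_le_div_iff₀ (by positivity) (by norm_num)]
      nlinarith
    calc (J.card : ℝ) * (ε' * p) = (J.card * ε') * p := by ring
      _ ≤ ε / 2 * p := mul_le_mul_of_nonneg_right h7 (Nat.cast_nonneg _)
  rw [hZc] at h5
  linarith

end

end Pool.Agent.Q267.AM
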