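import Pool.Agent.Q267.AP.Place
import Pool.Agent.Q267.AM.Trans

/-!
# The zeros of the Hasse-Witt determinant at the places of a number field

The case of a general exponent `m` (the file `Pool/Agent/Q267/AP/Place.lean` is the case `m ≤ 2`).
-/

set_option autoImplicit false

open Finset

namespace Pool.Agent.Q267.AM

open Pool.Agent.Q267.ST Pool.Agent.Q267.AP

open NumberField IsDedekindDomain
open Pool.Agent.Q267.OD (charP_res finite_mem)
open Pool.Agent.Q267.DC (hm hm_map det_hm_map card_res)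

section

variable {K : Type} [Field K] [NumberField K] {n e : ℕ}

/-- The family over a finitely generated ring. -/
theorem overA (hNorm : S_Norm) (hConst : S_Const) (hPerD : S_PerD) (hStar : S_Star)
    (hCharts : S_Charts) (m : ℕ) (hm12 : 1 ≤ m)
    (f : MvPolynomial (Fin (n + 1)) (Polynomial (𝓞 K))) (hf : ∀ u ∈ f.support, ∑ i, u i = m * e)
    (l : Fin e → Fin (n + 1) → AlgebraicClosure K)
    (hl : ∀ σ : Fin (n + 1) → Fin e, Function.Injective σ →
      (Matrix.of fun i j => l (σ i) j).det ≠ 0) (harr : ArrAt m f l) (ε : ℝ) (hε : 0 < ε) :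
    ∃ (A : Subalgebra (𝓞 K) (AlgebraicClosure K)) (s₀ : K) (s₁ a : A) (p₀ : ℕ),
      A.FG ∧ (s₁ : AlgebraicClosure K) = algebraMap K (AlgebraicClosure K) s₀ ∧ a ≠ 0 ∧
      ∀ (p : ℕ) (k : Type) [Field k] [CharP k p] (φ : A →+* k),
      p.Prime → p₀ ≤ p → φ a ≠ 0 → φ s₁ ^ p = φ s₁ → ∀ e' : ℕ, e' * m + 1 = p →
      ∀ Z : Finset k, (∀ t ∈ Z, t ^ p = t ∧ (hm e' p (wexp n e) (MvPolynomial.map
        (Polynomial.mapRingHom (φ.comp (algebraMap (𝓞 K) A))) f)).det.eval t = 0) →
        (Z.card : ℝ) ≤ ε * p := by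
  classical
  obtain ⟨s₀, hs₀⟩ : ∃ s₀ : K, (MvPolynomial.map ((algebraMap K (AlgebraicClosure K)).comp
    (Polynomial.eval₂RingHom (algebraMap (𝓞 K) K) s₀)) f = (∏ i, lf (l i)) ^ m) ∨
    ∃ d : ℕ, (∀ u, (MvPolynomial.coeff u f).natDegree ≤ d) ∧
    ∀ u, algebraMap K (AlgebraicClosure K) (algebraMap (𝓞 K) K ((MvPolynomial.coeff u f).coeff d)) =
      MvPolynomial.coeff u ((∏ i, lf (l i)) ^ m) := by
    rcases harr with ⟨s₀, h⟩ | h
    · exact ⟨s₀, Or.inl h⟩
    · exact ⟨0, Or.inr h⟩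
  set S : Finset (AlgebraicClosure K) :=
    ((univ : Finset (Fin e × Fin (n + 1))).image fun ij => l ij.1 ij.2) ∪
    ((univ : Finset (Fin (n + 1) → Fin e)).image fun σ => (Matrix.of fun i j => l (σ i) j).det⁻¹) ∪
    {((m : AlgebraicClosure K) ^ 2)⁻¹, algebraMap K (AlgebraicClosure K) s₀} with hS
  set A := Algebra.adjoin (𝓞 K) (S : Set (AlgebraicClosure K)) with hA
  have hsub : ∀ x ∈ S, x ∈ A := fun x hx => Algebra.subset_adjoin (mem_coe.mpr hx)
  have hl' : ∀ i j, l i j ∈ A := fun i j => hsub _ (by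
    rw [hS]
    refine mem_union_left _ (mem_union_left _ (mem_image.mpr ⟨(i, j), mem_univ _, rfl⟩)))
  have hd' : ∀ σ : Fin (n + 1) → Fin e, (Matrix.of fun i j => l (σ i) j).det⁻¹ ∈ A := fun σ =>
    hsub _ (by
      rw [hS]
      exact mem_union_left _ (mem_union_right _ (mem_image.mpr ⟨σ, mem_univ _, rfl⟩)))
  have hm' : ((m : AlgebraicClosure K) ^ 2)⁻¹ ∈ A := hsub _ (by
    rw [hS]
    exact mem_union_right _ (mem_insert_self _ _))
  have hs' : algebraMap K (AlgebraicClosure K) s₀ ∈ A := hsub _ (by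
    rw [hS]
    exact mem_union_right _ (mem_insert_of_mem (mem_singleton_self _)))
  have hinj : Function.Injective (A.val : A →+* AlgebraicClosure K) := Subtype.val_injective
  have hm0 : (m : AlgebraicClosure K) ^ 2 ≠ 0 := by
    apply pow_ne_zero
    rw [Nat.cast_ne_zero]
    omega
  set lA : Fin e → Fin (n + 1) → A := fun i j => ⟨l i j, hl' i j⟩ with hlA
  have hdet : ∀ σ : Fin (n + 1) → Fin e, (A.val : A →+* AlgebraicClosure K)
      (Matrix.of fun i j => lA (σ i) j).det = (Matrix.of fun i j => l (σ i) j).det := by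
    intro σ
    rw [RingHom.map_det]
    rfl
  have hlf : MvPolynomial.map (A.val : A →+* AlgebraicClosure K) ((∏ i, lf (lA i)) ^ m) =
      (∏ i, lf (l i)) ^ m := by
    rw [map_pow, map_prod]
    congr 1
    refine prod_congr rfl fun i _ => ?_
    unfold lf
    rw [map_sum]
    refine sum_congr rfl fun j _ => ?_
    rw [map_mul, MvPolynomial.map_C, MvPolynomial.map_X]
    rfl
  set fA := MvPolynomial.map (Polynomial.mapRingHom (algebraMap (𝓞 K) A)) f with hfA
  have hunit : ∀ σ : Fin (n + 1) → Fin e, Function.Injective σ →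
      IsUnit (Matrix.of fun i j => lA (σ i) j).det := by
    intro σ hσ
    refine IsUnit.of_mul_eq_one ⟨_, hd' σ⟩ ?_
    apply hinj
    rw [map_mul, hdet σ, map_one]
    exact mul_inv_cancel₀ (hl σ hσ)
  have hμ : (m : A) ^ 2 * ⟨_, hm'⟩ = 1 := by
    apply hinj
    rw [map_mul, map_pow, map_natCast, map_one]
    exact mul_inv_cancel₀ hm0
  have hfAs : ∀ u ∈ fA.support, ∑ i, u i = m * e := fun u hu =>
    hf u (MvPolynomial.support_map_subset _ _ hu)
  have hphi : ∀ (k : Type) [Field k] (φ : A →+* k), MvPolynomial.map (Polynomial.mapRingHom φ) fA =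
      MvPolynomial.map (Polynomial.mapRingHom (φ.comp (algebraMap (𝓞 K) A))) f := by
    intro k _ φ
    rw [hfA, MvPolynomial.map_map, Polynomial.mapRingHom_comp]
  refine ⟨A, s₀, ⟨_, hs'⟩, ?_⟩
  have hFG : A.FG := Subalgebra.fg_adjoin_finset S
  rcases hs₀ with h0 | ⟨d, hd, hd0⟩
  · obtain ⟨p₀, a, ha, h⟩ := concs hNorm hConst hPerD hStar hCharts hm12 lA hunit ⟨_, hm'⟩ hμ fA
      hfAs ⟨_, hs'⟩ (by
        apply MvPolynomial.map_injective _ hinj
        rw [hlf, ← h0, hfA, MvPolynomial.map_map, MvPolynomial.map_map]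
        congr 2
        ext a
        · simp
          rfl
        · simp) ε hε
    refine ⟨a, p₀, hFG, rfl, ha, ?_⟩
    intro p k _ _ φ hpp hp0 hφ hs e' he Z hZ
    exact h p k φ hpp hp0 hφ hs e' he Z fun t ht => by rw [hphi]; exact hZ t ht
  · obtain ⟨p₀, a, ha, h⟩ := conci hNorm hConst hPerD hStar hCharts hm12 lA hunit ⟨_, hm'⟩ hμ fA
      hfAs d (fun u => by
        rw [hfA, MvPolynomial.coeff_map, Polynomial.coe_mapRingHom]
        exact Polynomial.natDegree_map_le.trans (hd u)) (fun u => by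
        apply hinj
        have h1 : (A.val : A →+* AlgebraicClosure K)
            (MvPolynomial.coeff u ((∏ i, lf (lA i)) ^ m)) =
            MvPolynomial.coeff u ((∏ i, lf (l i)) ^ m) := by
          rw [← hlf, MvPolynomial.coeff_map]
        rw [h1, ← hd0 u, hfA, MvPolynomial.coeff_map, Polynomial.coe_mapRingHom,
          Polynomial.coeff_map]
        rfl) ε hε
    refine ⟨a, p₀, hFG, rfl, ha, ?_⟩
    intro p k _ _ φ hpp hp0 hφ _ e' he Z hZ
    exact h p k φ hpp hp0 hφ e' he Z fun t ht => by rw [hphi]; exact hZ t ht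

/-- **The zeros of the Hasse-Witt determinant modulo a place.** -/
theorem place (hNorm : S_Norm) (hConst : S_Const) (hPerD : S_PerD) (hStar : S_Star)
    (hCharts : S_Charts) (hSpread : S_Spread) (m : ℕ) (hm12 : 1 ≤ m)
    (f : MvPolynomial (Fin (n + 1)) (Polynomial (𝓞 K))) (hf : ∀ u ∈ f.support, ∑ i, u i = m * e)
    (l : Fin e → Fin (n + 1) → AlgebraicClosure K)
    (hl : ∀ σ : Fin (n + 1) → Fin e, Function.Injective σ →
      (Matrix.of fun i j => l (σ i) j).det ≠ 0) (harr : ArrAt m f l) (ε : ℝ) (hε : 0 < ε) :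
    {v : HeightOneSpectrum (𝓞 K) | (Ideal.absNorm v.asIdeal).Prime ∧
      ¬ ∀ e' : ℕ, e' * m + 1 = Ideal.absNorm v.asIdeal →
      ∀ Z : Finset v.asIdeal.ResidueField, (∀ t ∈ Z, (hm e' (Ideal.absNorm v.asIdeal) (wexp n e)
        (MvPolynomial.map (Polynomial.mapRingHom (algebraMap (𝓞 K) v.asIdeal.ResidueField))
          f)).det.eval t = 0) → (Z.card : ℝ) ≤ ε * Ideal.absNorm v.asIdeal}.Finite := by
  classical
  obtain ⟨A, s₀, s₁, a, p₀, hFG, hs, ha, h⟩ := overA hNorm hConst hPerD hStar hCharts m hm12 f hf l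
    hl harr ε hε
  have hinj : Function.Injective (A.val : A →+* AlgebraicClosure K) := Subtype.val_injective
  have halg : ∀ x : 𝓞 K, ((algebraMap (𝓞 K) A x : A) : AlgebraicClosure K) =
      algebraMap K (AlgebraicClosure K) (algebraMap (𝓞 K) K x) := fun x => rfl
  have h1 : Function.Injective (algebraMap (𝓞 K) A) := by
    intro x y hxy
    have h2 := congrArg (fun z : A => (z : AlgebraicClosure K)) hxy
    simp only [halg] at h2
    exact (IsFractionRing.injective (𝓞 K) K) ((algebraMap K (AlgebraicClosure K)).injective h2)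
  have h2 : Algebra.FiniteType (𝓞 K) A := (Subalgebra.fg_iff_finiteType A).mp hFG
  have h3 : Algebra.IsAlgebraic (𝓞 K) A := by
    have h4 : Algebra.IsAlgebraic (𝓞 K) (AlgebraicClosure K) :=
      (IsFractionRing.comap_isAlgebraic_iff (A := 𝓞 K) (K := K) (C := AlgebraicClosure K)).mpr
        inferInstance
    refine ⟨fun x => ?_⟩
    exact (isAlgebraic_algHom_iff A.val Subtype.val_injective).mp
      (h4.isAlgebraic (x : AlgebraicClosure K))
  have hfin := hSpread (𝓞 K) A h1 h2 h3 a ha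
  obtain ⟨x, y, hy, hxy⟩ := IsFractionRing.div_surjective (A := 𝓞 K) s₀
  have hy0 : y ≠ 0 := nonZeroDivisors.ne_zero hy
  have hyA : algebraMap (𝓞 K) A y * s₁ = algebraMap (𝓞 K) A x := by
    apply hinj
    rw [map_mul]
    change ((algebraMap (𝓞 K) A y : A) : AlgebraicClosure K) * (s₁ : AlgebraicClosure K) =
      ((algebraMap (𝓞 K) A x : A) : AlgebraicClosure K)
    rw [halg, halg, hs, ← map_mul, ← hxy]
    congr 1
    have : algebraMap (𝓞 K) K y ≠ 0 := by
      rw [Ne, FaithfulSMul.algebraMap_eq_zero_iff]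
      exact hy0
    field_simp
  refine ((hfin.union (finite_mem (K := K) y hy0)).union
    (Pool.Agent.W352.ChAbs.finite_le (K := K) p₀)).subset ?_
  rintro v ⟨hv, hv'⟩
  by_contra hno
  simp only [Set.mem_union, Set.mem_ofPred_eq, not_or, not_not, not_le] at hno
  obtain ⟨⟨⟨k, hk, φ, hφ, hker⟩, hyv⟩, hp0⟩ := hno
  apply hv'
  intro e' he Z hZ
  set p := Ideal.absNorm v.asIdeal with hp
  have hcharκ := charP_res v hv
  have hchar : CharP k p := by
    rw [CharP.charP_iff_prime_eq_zero hv]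
    have h5 : (p : 𝓞 K) ∈ v.asIdeal := Ideal.absNorm_mem v.asIdeal
    rw [← hker, RingHom.mem_ker, map_natCast] at h5
    exact h5
  have hunits : v.asIdeal.primeCompl ≤
      Submonoid.comap (φ.comp (algebraMap (𝓞 K) A)) (IsUnit.submonoid k) := fun z hz => by
    refine IsUnit.mk0 _ fun h0 => hz ?_
    rw [← hker]
    exact h0
  set ι : v.asIdeal.ResidueField →+* k := Ideal.ResidueField.lift v.asIdeal
    (φ.comp (algebraMap (𝓞 K) A)) hker.ge hunits with hι
  have hcomp : ι.comp (algebraMap (𝓞 K) v.asIdeal.ResidueField) =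
      φ.comp (algebraMap (𝓞 K) A) := by
    ext z
    exact Ideal.ResidueField.lift_algebraMap v.asIdeal (φ.comp (algebraMap (𝓞 K) A)) hker.ge hunits z
  have hcn := card_res v
  have hfinite : Finite v.asIdeal.ResidueField :=
    Nat.finite_of_card_ne_zero (by rw [hcn]; exact hv.ne_zero)
  have : Fintype v.asIdeal.ResidueField := Fintype.ofFinite _
  rw [Nat.card_eq_fintype_card] at hcn
  have hpow : ∀ t : v.asIdeal.ResidueField, t ^ p = t := fun t => by
    rw [hp, ← hcn]
    exact FiniteField.pow_card t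
  have hs1 : φ s₁ ^ p = φ s₁ := by
    have h5 := congrArg φ hyA
    rw [map_mul] at h5
    have h6 : ∀ z : 𝓞 K, φ (algebraMap (𝓞 K) A z) =
        ι (algebraMap (𝓞 K) v.asIdeal.ResidueField z) := fun z => (RingHom.congr_fun hcomp z).symm
    rw [h6, h6] at h5
    have h7 : ι (algebraMap (𝓞 K) v.asIdeal.ResidueField y) ≠ 0 := by
      rw [Ne, map_eq_zero, Ideal.algebraMap_residueField_eq_zero]
      exact hyv
    have h8 : φ s₁ = ι ((algebraMap (𝓞 K) v.asIdeal.ResidueField x) /
        (algebraMap (𝓞 K) v.asIdeal.ResidueField y)) := by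
      rw [map_div₀, eq_div_iff h7, mul_comm]
      exact h5
    rw [h8, ← map_pow, hpow]
  have h5 := h p k φ hv (le_of_lt (by simpa using hp0)) hφ hs1 e' he (Z.image ι) (by
    intro t ht
    obtain ⟨z, hz, rfl⟩ := mem_image.mp ht
    refine ⟨by rw [← map_pow, hpow], ?_⟩
    rw [← hcomp, ← Polynomial.mapRingHom_comp, ← MvPolynomial.map_map, det_hm_map,
      Polynomial.coe_mapRingHom, Polynomial.eval_map, Polynomial.eval₂_at_apply, hZ z hz, map_zero])
  rwa [card_image_of_injective _ ι.injective] at h5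

end

end Pool.Agent.Q267.AM
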