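import Pool.Agent.Q102.AP.Cart
import Pool.Agent.Q267.AP.Conc

/-!
# The Cartier operator on forms and the Hasse-Witt matrix
-/

set_option autoImplicit false

open Finset

namespace Pool.Agent.Q267.AM

open Pool.Agent.Q267.AP
open Pool.Agent.Q267.DC (hm)
open Pool.Agent.Q102.AP (coeff_U one_apply)

section

variable {k : Type} [Field k] {n : ℕ}

/-- If the Hasse-Witt matrix is invertible, then the Cartier operator `A ↦ U (A F ^ N)` is surjective
on the forms of degree `e - n - 1`. -/
theorem cart_surj (e q N D : ℕ) (hq : 0 < q) (F : MvPolynomial (Fin (n + 1)) k)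
    (hF : ∀ u ∈ F.support, ∑ i, u i = D) (hdet : (hm N q (wexp n e) F).det ≠ 0)
    (B : MvPolynomial (Fin (n + 1)) k) (hB : ∀ u ∈ B.support, ∑ i, u i + (n + 1) = e) :
    ∃ A : MvPolynomial (Fin (n + 1)) k, (∀ u ∈ A.support, ∑ i, u i + (n + 1) = e) ∧
      U q (A * F ^ N) = B := by
  classical
  have hone : ∑ i, one (Fin (n + 1)) i = n + 1 := by
    simp only [one_apply, sum_const, card_univ, Fintype.card_fin, smul_eq_mul, mul_one]
  -- exponents
  have hexp : ∀ u : Fin (n + 1) →₀ ℕ, ∑ i, u i + (n + 1) = e → ∃ w : Exps n e,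
      wexp n e w = u + one (Fin (n + 1)) := by
    intro u hu
    have h1 : ∀ i, u i + 1 < e + 1 := by
      intro i
      have h2 : u i ≤ ∑ i, u i :=
        single_le_sum (f := fun i => u i) (fun _ _ => Nat.zero_le _) (mem_univ i)
      omega
    refine ⟨⟨fun i => ⟨u i + 1, h1 i⟩, fun i => Nat.succ_pos _, ?_⟩, ?_⟩
    · change ∑ i, (u i + 1) = e
      rw [sum_add_distrib, sum_const, card_univ, Fintype.card_fin, smul_eq_mul, mul_one]
      exact hu
    · ext i
      rw [wexp_apply, Finsupp.add_apply, one_apply]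
  have hle : ∀ w : Exps n e, one (Fin (n + 1)) ≤ wexp n e w := by
    intro w i
    rw [one_apply, wexp_apply]
    exact w.2.1 i
  have hws : ∀ w : Exps n e, ∑ i, wexp n e w i = e := fun w => w.2.2
  by_cases hemp : IsEmpty (Exps n e)
  · refine ⟨0, by simp, ?_⟩
    have hB0 : B = 0 := by
      by_contra hne
      obtain ⟨u, hu⟩ := MvPolynomial.support_nonempty.mpr hne
      obtain ⟨w, _⟩ := hexp u (hB u hu)
      exact hemp.false w
    rw [hB0, zero_mul]
    exact Pool.Agent.Q102.AP.U_zero q hq
  rw [not_isEmpty_iff] at hemp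
  -- the degrees
  have hdeg : q * e = e + N * D := by
    obtain ⟨w, w', hw⟩ : ∃ w w', hm N q (wexp n e) F w w' ≠ 0 := by
      by_contra hno
      push Not at hno
      apply hdet
      have h0 : hm N q (wexp n e) F = 0 := by
        ext w w'
        exact hno w w'
      rw [h0, Matrix.det_zero]
    unfold hm at hw
    rw [Matrix.of_apply] at hw
    have h1 := MvPolynomial.mem_support_iff.mpr hw
    obtain ⟨b, hb, u, hu, hbu⟩ := mem_add.mp (MvPolynomial.support_mul _ _ h1)
    rw [mem_singleton.mp (MvPolynomial.support_monomial_subset hb)] at hbu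
    have h2 := sum_pow D F hF N u hu
    have h3 : ∑ i, (wexp n e w' + u) i = ∑ i, (q • wexp n e w) i := by rw [hbu]
    rw [Pool.Agent.Q267.AP.sum_smul] at h3
    simp only [Finsupp.add_apply, sum_add_distrib] at h3
    rw [hws, hws, h2] at h3
    exact h3.symm
  -- the solution
  set H := hm N q (wexp n e) F with hH
  set b : Exps n e → k := fun w => MvPolynomial.coeff (wexp n e w - one (Fin (n + 1))) B with hb
  set a : Exps n e → k := H⁻¹.mulVec b with ha
  have hab : H.mulVec a = b := by
    rw [ha, Matrix.mulVec_mulVec, Matrix.mul_nonsing_inv _ (isUnit_iff_ne_zero.mpr hdet),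
      Matrix.one_mulVec]
  set A : MvPolynomial (Fin (n + 1)) k :=
    ∑ w : Exps n e, MvPolynomial.monomial (wexp n e w - one (Fin (n + 1))) (a w) with hA
  have hAs : ∀ u ∈ A.support, ∑ i, u i + (n + 1) = e := by
    intro u hu
    rw [hA] at hu
    obtain ⟨w, _, hw⟩ := mem_biUnion.mp (MvPolynomial.support_sum hu)
    rw [mem_singleton.mp (MvPolynomial.support_monomial_subset hw)]
    have h1 := congrArg (fun v : Fin (n + 1) →₀ ℕ => ∑ i, v i) (tsub_add_cancel_of_le (hle w))
    simp only [Finsupp.add_apply, sum_add_distrib] at h1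
    rw [hone, hws] at h1
    exact h1
  refine ⟨A, hAs, ?_⟩
  ext1 u
  rw [coeff_U q hq]
  by_cases hu : ∑ i, u i + (n + 1) = e
  · obtain ⟨w, hw⟩ := hexp u hu
    have h1 : ∀ w' : Exps n e, MvPolynomial.coeff (q • u + (q - 1) • one (Fin (n + 1)))
        (MvPolynomial.monomial (wexp n e w' - one (Fin (n + 1))) (a w') * F ^ N) =
          H w w' * a w' := by
      intro w'
      have h2 : H w w' = MvPolynomial.coeff (q • u + (q - 1) • one (Fin (n + 1)))
          (MvPolynomial.monomial (wexp n e w' - one (Fin (n + 1))) 1 * F ^ N) := by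
        rw [hH]
        unfold hm
        rw [Matrix.of_apply]
        have h3 : q • wexp n e w = one (Fin (n + 1)) +
            (q • u + (q - 1) • one (Fin (n + 1))) := by
          rw [hw]
          ext i
          simp only [Finsupp.add_apply, Finsupp.smul_apply, one_apply, smul_eq_mul]
          obtain ⟨q', rfl⟩ : ∃ q', q = q' + 1 := ⟨q - 1, by omega⟩
          rw [Nat.add_sub_cancel]
          ring
        have h4 : (MvPolynomial.monomial (wexp n e w') (1 : k) :
            MvPolynomial (Fin (n + 1)) k) = MvPolynomial.monomial (one (Fin (n + 1))) 1 *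
            MvPolynomial.monomial (wexp n e w' - one (Fin (n + 1))) 1 := by
          rw [MvPolynomial.monomial_mul, one_mul, add_tsub_cancel_of_le (hle w')]
        rw [h3, h4, mul_assoc, MvPolynomial.coeff_monomial_mul, one_mul]
      rw [h2, mul_comm (MvPolynomial.coeff _ _) (a w'), ← MvPolynomial.coeff_C_mul, ← mul_assoc,
        MvPolynomial.C_mul_monomial, mul_one]
    rw [hA, sum_mul, MvPolynomial.coeff_sum, sum_congr rfl fun w' _ => h1 w']
    have h5 := congrFun hab w
    have h6 : b w = MvPolynomial.coeff u B := by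
      rw [hb]
      change MvPolynomial.coeff (wexp n e w - one (Fin (n + 1))) B = _
      rw [hw, add_tsub_cancel_right]
    rw [← h6, ← h5]
    rfl
  · have h1 : MvPolynomial.coeff u B = 0 := by
      by_contra h2
      exact hu (hB u (MvPolynomial.mem_support_iff.mpr h2))
    rw [h1]
    by_contra h2
    apply hu
    obtain ⟨s, hs, u', hu', hsu⟩ := mem_add.mp (MvPolynomial.support_mul _ _
      (MvPolynomial.mem_support_iff.mpr h2))
    have h3 := hAs s hs
    have h4 := sum_pow D F hF N u' hu'
    have h5 := congrArg (fun v : Fin (n + 1) →₀ ℕ => ∑ i, v i) hsu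
    simp only [Finsupp.add_apply, Finsupp.smul_apply, one_apply, smul_eq_mul, mul_one,
      sum_add_distrib, sum_const, card_univ, Fintype.card_fin, ← mul_sum] at h5
    rw [h4] at h5
    obtain ⟨q', rfl⟩ : ∃ q', q = q' + 1 := ⟨q - 1, by omega⟩
    rw [Nat.add_sub_cancel] at h5
    have h6 : (q' + 1) * (∑ i, u i + (n + 1)) = (q' + 1) * e := by
      rw [hdeg]
      nlinarith
    exact Nat.eq_of_mul_eq_mul_left (Nat.succ_pos q') h6

end

end Pool.Agent.Q267.AM
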