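import Pool.Agent.Q267.AM.FewT
import Pool.Agent.Q267.AM.Surj

/-!
# Products of families and their values at points of the projective line
-/

set_option autoImplicit false

open Finset

namespace Pool.Agent.Q267.AM

open Pool.Agent.Q267.AP
open NumberField IsDedekindDomain
open Pool.Agent.Q267.OD (charP_res finite_mem red)
open Pool.Agent.Q267.DC (hm)

section hom

variable {R : Type} [CommRing R] {n : ℕ}

/-- Forms of degree `D`. -/
def Hg (D : ℕ) (F : MvPolynomial (Fin (n + 1)) R) : Prop := ∀ u ∈ F.support, ∑ i, u i = D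

lemma Hg.mul {D D' : ℕ} {F G : MvPolynomial (Fin (n + 1)) R} (hF : Hg D F) (hG : Hg D' G) :
    Hg (D + D') (F * G) := by
  classical
  intro u hu
  obtain ⟨a, ha, b, hb, hab⟩ := mem_add.mp (MvPolynomial.support_mul _ _ hu)
  rw [← hab, ← hF a ha, ← hG b hb, ← sum_add_distrib]
  exact sum_congr rfl fun i _ => Finsupp.add_apply _ _ _

lemma Hg.one : Hg 0 (1 : MvPolynomial (Fin (n + 1)) R) := by
  classical
  intro u hu
  have h1 : u = 0 := by
    by_contra h
    rw [MvPolynomial.mem_support_iff, MvPolynomial.coeff_one, if_neg (Ne.symm h)] at hu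
    exact hu rfl
  rw [h1]
  simp

lemma Hg.pow {D : ℕ} {F : MvPolynomial (Fin (n + 1)) R} (hF : Hg D F) (N : ℕ) :
    Hg (N * D) (F ^ N) := fun u hu => sum_pow D F hF N u hu

lemma Hg.prod {β : Type} (s : Finset β) {D : β → ℕ} {F : β → MvPolynomial (Fin (n + 1)) R}
    (hF : ∀ b ∈ s, Hg (D b) (F b)) : Hg (∑ b ∈ s, D b) (∏ b ∈ s, F b) := by
  classical
  induction s using Finset.induction_on with
  | empty => rw [sum_empty, prod_empty]; exact Hg.one
  | insert b s hb ih =>
    rw [sum_insert hb, prod_insert hb]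
    exact (hF b (mem_insert_self _ _)).mul (ih fun c hc => hF c (mem_insert_of_mem hc))

lemma Hg.map {S : Type} [CommRing S] (φ : R →+* S) {D : ℕ} {F : MvPolynomial (Fin (n + 1)) R}
    (hF : Hg D F) : Hg D (MvPolynomial.map φ F) := fun u hu =>
  hF u (MvPolynomial.support_map_subset _ _ hu)

end hom

section val

variable {K : Type} [Field K] [NumberField K] {n : ℕ}

/-- The family `f` has the value `g` at the point `s` of `P^1(K)` (at infinity, `s = none`: the
coefficient of `t ^ d`, `d` at least the degree in `t`). -/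
def Val (s : Option K) (f : MvPolynomial (Fin (n + 1)) (Polynomial (𝓞 K)))
    (g : MvPolynomial (Fin (n + 1)) (AlgebraicClosure K)) : Prop :=
  match s with
  | some s₀ => MvPolynomial.map ((algebraMap K (AlgebraicClosure K)).comp
      (Polynomial.eval₂RingHom (algebraMap (𝓞 K) K) s₀)) f = g
  | none => ∃ d : ℕ, (∀ u, (MvPolynomial.coeff u f).natDegree ≤ d) ∧
      ∀ u, algebraMap K (AlgebraicClosure K) (algebraMap (𝓞 K) K ((MvPolynomial.coeff u f).coeff d)) =
        MvPolynomial.coeff u g

lemma Val.mul {s : Option K} {f f' : MvPolynomial (Fin (n + 1)) (Polynomial (𝓞 K))}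
    {g g' : MvPolynomial (Fin (n + 1)) (AlgebraicClosure K)} (h : Val s f g) (h' : Val s f' g') :
    Val s (f * f') (g * g') := by
  classical
  cases s with
  | some s₀ =>
    have h1 : MvPolynomial.map ((algebraMap K (AlgebraicClosure K)).comp
      (Polynomial.eval₂RingHom (algebraMap (𝓞 K) K) s₀)) f = g := h
    have h2 : MvPolynomial.map ((algebraMap K (AlgebraicClosure K)).comp
      (Polynomial.eval₂RingHom (algebraMap (𝓞 K) K) s₀)) f' = g' := h'
    change MvPolynomial.map _ _ = _
    rw [map_mul, h1, h2]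
  | none =>
    obtain ⟨d, hd, hc⟩ := h
    obtain ⟨d', hd', hc'⟩ := h'
    refine ⟨d + d', ?_, ?_⟩
    · intro u
      rw [MvPolynomial.coeff_mul]
      refine Polynomial.natDegree_sum_le_of_forall_le _ _ fun x _ => ?_
      exact Polynomial.natDegree_mul_le.trans (Nat.add_le_add (hd _) (hd' _))
    · intro u
      rw [MvPolynomial.coeff_mul, MvPolynomial.coeff_mul, Polynomial.finsetSum_coeff, map_sum,
        map_sum]
      refine sum_congr rfl fun x _ => ?_
      rw [Polynomial.coeff_mul_add_eq_of_natDegree_le (hd _) (hd' _), map_mul, map_mul, hc, hc']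

lemma Val.one (s : Option K) : Val s (1 : MvPolynomial (Fin (n + 1)) (Polynomial (𝓞 K))) 1 := by
  classical
  cases s with
  | some s₀ =>
    change MvPolynomial.map _ _ = _
    exact map_one _
  | none =>
    refine ⟨0, ?_, ?_⟩
    · intro u
      rw [MvPolynomial.coeff_one]
      split_ifs
      · simp
      · simp
    · intro u
      rw [MvPolynomial.coeff_one, MvPolynomial.coeff_one]
      split_ifs
      · simp
      · simp

lemma Val.pow {s : Option K} {f : MvPolynomial (Fin (n + 1)) (Polynomial (𝓞 K))}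
    {g : MvPolynomial (Fin (n + 1)) (AlgebraicClosure K)} (h : Val s f g) (N : ℕ) :
    Val s (f ^ N) (g ^ N) := by
  induction N with
  | zero => rw [pow_zero, pow_zero]; exact Val.one s
  | succ N ih => rw [pow_succ, pow_succ]; exact ih.mul h

lemma Val.prod {β : Type} {s : Option K} (S : Finset β)
    {f : β → MvPolynomial (Fin (n + 1)) (Polynomial (𝓞 K))}
    {g : β → MvPolynomial (Fin (n + 1)) (AlgebraicClosure K)} (h : ∀ b ∈ S, Val s (f b) (g b)) :
    Val s (∏ b ∈ S, f b) (∏ b ∈ S, g b) := by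
  classical
  induction S using Finset.induction_on with
  | empty => rw [prod_empty, prod_empty]; exact Val.one s
  | insert b S hb ih =>
    rw [prod_insert hb, prod_insert hb]
    exact (h b (mem_insert_self _ _)).mul (ih fun c hc => h c (mem_insert_of_mem hc))

lemma Val.arr {s : Option K} {m e : ℕ} {f : MvPolynomial (Fin (n + 1)) (Polynomial (𝓞 K))}
    {l : Fin e → Fin (n + 1) → AlgebraicClosure K} (h : Val s f ((∏ i, lf (l i)) ^ m)) :
    ArrAt m f l := by
  cases s with
  | some s₀ => exact Or.inl ⟨s₀, h⟩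
  | none => exact Or.inr h

end val

section ci

variable {K : Type} [Field K] [NumberField K] {n r : ℕ}

/-- The linear forms: those of the equations and those of the character form. -/
def forms {d : Fin r → ℕ} {e : ℕ} (L : (i : Fin r) → Fin (d i) → Fin (n + 1) → AlgebraicClosure K)
    (M : Fin e → Fin (n + 1) → AlgebraicClosure K) :
    ((i : Fin r) × Fin (d i)) ⊕ Fin e → Fin (n + 1) → AlgebraicClosure K :=
  Sum.elim (fun x => L x.1 x.2) M

/-- The linear forms for a subset of the equations, numbered. -/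
lemma exists_num (I : Finset (Fin r)) (d : Fin r → ℕ) (e : ℕ) :
    ∃ ν : Fin (∑ i ∈ I, d i + e) → ((i : Fin r) × Fin (d i)) ⊕ Fin e, Function.Injective ν ∧
      ∀ g : ((i : Fin r) × Fin (d i)) ⊕ Fin e → MvPolynomial (Fin (n + 1)) (AlgebraicClosure K),
        ∏ x, g (ν x) = (∏ i ∈ I, ∏ a, g (Sum.inl ⟨i, a⟩)) * ∏ b, g (Sum.inr b) := by
  classical
  have hcard : Fintype.card (((i : I) × Fin (d i)) ⊕ Fin e) = ∑ i ∈ I, d i + e := by
    simp only [Fintype.card_sum, Fintype.card_sigma, Fintype.card_fin]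
    rw [← sum_coe_sort I]
  have φ : Fin (∑ i ∈ I, d i + e) ≃ ((i : I) × Fin (d i)) ⊕ Fin e :=
    (Fintype.equivFinOfCardEq hcard).symm
  let κ : ((i : I) × Fin (d i)) ⊕ Fin e → ((i : Fin r) × Fin (d i)) ⊕ Fin e :=
    Sum.map (fun x => ⟨x.1, x.2⟩) id
  have hκi : Function.Injective κ := by
    refine Function.Injective.sumMap ?_ Function.injective_id
    rintro ⟨⟨i, hi⟩, a⟩ ⟨⟨j, hj⟩, b⟩ h
    simp only [Sigma.mk.injEq] at h
    obtain ⟨rfl, h2⟩ := h
    rw [eq_of_heq h2]
  refine ⟨κ ∘ φ, hκi.comp φ.injective, fun g => ?_⟩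
  have h1 : ∏ x, g ((κ ∘ φ) x) = ∏ y, g (κ y) := φ.prod_comp fun y => g (κ y)
  rw [h1, Fintype.prod_sum_type, Fintype.prod_sigma, ← prod_coe_sort I]
  rfl

end ci

end Pool.Agent.Q267.AM
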